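import Pool.Agent.Lib.MP_f8f5a4_an.Defs
import Pool.Agent.Lib.MP_f8f5a4_an.Main

/-!
# Every generalized Bratteli diagram admits an order generating a Borel Vershik map

Idea of the proof. Fix an order and reverse it at the vertices of an arbitrary set; this gives a
family of orders parametrised by the Cantor space `V → Bool`. The number of infinite minimal paths
does not change when the choice is changed at finitely many vertices, and up to meagre sets it is
determined by open conditions; hence by the topological zero-one law it is generically constant.
Reversing all the choices exchanges minimal and maximal paths and preserves genericity, so for a
generic choice there are as many minimal as maximal paths (in `ℕ∞`). If some choice has uncountably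
many minimal paths, these are split into two uncountable families through two distinct vertices
and one family is reversed, which makes both the minimal and the maximal paths uncountable.
Sets of minimal and of maximal paths being closed in a Polish space, equal cardinality gives
a Borel isomorphism between them, which extends the Vershik map.
-/

set_option autoImplicit false

namespace Pool.Agent.Results.MP_f8f5a4_an.BorelVershikOrderExists

open Pool.Agent.Lib.MP_f8f5a4_an

theorem result (B : Diagram) : ∃ o : Order B, o.GeneratesBorelVershikMap :=
  Order.exists_order B

end Pool.Agent.Results.MP_f8f5a4_an.BorelVershikOrderExists
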